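import Pool.Agent.H21R2.Defs

/-!
# Permutation approximations for a positive proportion of the pairs
-/

set_option autoImplicit false

namespace Pool.Agent.R654.PosProp

open Finset Pool.Agent.H21R2

universe u

variable {Γ : Type u} [Group Γ]

open Classical in
/-- The pair `q = (x, y)` satisfies `d (γ (x y), α x β y) ≤ ε` (normalised Hamming distance), and at
most `K` elements `z` of `F` satisfy `d (β y, β z) < δ`. -/
def DistPair {n : ℕ} (ε δ : ℝ) (K : ℕ) (F : Finset Γ) (α β γ : Γ → Equiv.Perm (Fin n))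
    (q : Γ × Γ) : Prop :=
  hamm (γ (q.1 * q.2)) (α q.1 * β q.2) ≤ ε ∧
    (F.filter fun z => hamm (β q.2) (β z) < δ).card ≤ K

open Classical in
/-- There are `n ≥ 1` and maps `α, β, γ : Γ → Sym(n)` with at least `p |F| ^ 2` pairs of elements of
`F` as in `DistPair`. -/
def Dist (p ε δ : ℝ) (K : ℕ) (F : Finset Γ) : Prop :=
  ∃ n : ℕ, 1 ≤ n ∧ ∃ α β γ : Γ → Equiv.Perm (Fin n),
    p * (F.card : ℝ) ^ 2 ≤ (((F ×ˢ F).filter fun q => DistPair ε δ K F α β γ q).card : ℝ)

open Classical in
/-- The pair `q = (x, y)` satisfies `γ(xy) = α(x) β(y)`, and at most `K` elements `z` of `F` satisfy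
`β(z) = β(y)`. -/
def ExactPair {S : Type u} [Group S] (K : ℕ) (F : Finset Γ) (α β γ : Γ → S) (q : Γ × Γ) : Prop :=
  γ (q.1 * q.2) = α q.1 * β q.2 ∧ (F.filter fun z => β z = β q.2).card ≤ K

open Classical in
/-- There are maps `α, β, γ` to a sofic group with at least `p |F| ^ 2` pairs as in
`ExactPair`. -/
def Exact (p : ℝ) (K : ℕ) (F : Finset Γ) : Prop :=
  ∃ (S : Type u) (_ : Group S), IsSofic S ∧ ∃ α β γ : Γ → S,
    p * (F.card : ℝ) ^ 2 ≤ (((F ×ˢ F).filter fun q => ExactPair K F α β γ q).card : ℝ)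

/-- the statement to be proved -/
def Statement : Prop :=
  ∀ (p ε δ : ℝ) (K : ℕ), 0 < p → p ≤ 1 → 1 ≤ K → 0 < ε →
      868 * (Nat.log 2 K + 1) * ε < δ → δ < 1 →
      -- all groups `G`, in terms of the finite powers of `G`
      (∀ (G : Type u) [Group G], [IsSofic G,
        ∀ (m : ℕ) (F : Finset (Fin m → G)), Dist p ε δ K F,
        ∀ (m : ℕ) (A : Finset G), Dist p ε δ K (Fintype.piFinset fun _ : Fin m => A),
        ∀ (m : ℕ) (F : Finset (Fin m → G)), Exact p K F,
        ∀ (m : ℕ) (A : Finset G), Exact p K (Fintype.piFinset fun _ : Fin m => A)].TFAE) ∧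
      -- groups which contain a copy of their square
      (∀ (G : Type u) [Group G] (f : G × G →* G), Function.Injective f → [IsSofic G,
        ∀ F : Finset G, Dist p ε δ K F, ∀ F : Finset G, Exact p K F].TFAE) ∧
      -- all groups together
      [∀ (G : Type u) [Group G], IsSofic G,
        ∀ (G : Type u) [Group G] (F : Finset G), Dist p ε δ K F,
        ∀ (G : Type u) [Group G] (F : Finset G), Exact p K F].TFAE

end Pool.Agent.R654.PosProp
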